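import Mathlib

namespace Pool.Agent.Results.MP_6ee6b4_an.Counter

open Filter Topology Polynomial

/-- `X` with the bilinear product `m` is an `F`-algebra. -/
def IsFAlg {K X : Type} [RCLike K] [AddCommGroup X] [Module K X] [TopologicalSpace X]
    (m : X →ₗ[K] X →ₗ[K] X) : Prop :=
  IsTopologicalAddGroup X ∧ ContinuousSMul K X ∧
    TopologicalSpace.IsCompletelyMetrizableSpace X ∧
    Continuous (fun p : X × X => m p.1 p.2) ∧ ∀ x y z, m (m x y) z = m x (m y z)

/-- `pw m x n` is the power `x ^ (n + 1)` for the product `m`. -/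
def pw {K X : Type} [RCLike K] [AddCommGroup X] [Module K X]
    (m : X →ₗ[K] X →ₗ[K] X) (x : X) : ℕ → X
  | 0 => x
  | n + 1 => m (pw m x n) x

/-- `y` is hypercyclic for `T`. -/
def Hyp {X : Type} [TopologicalSpace X] (T : X → X) (y : X) : Prop :=
  Dense (Set.range fun n : ℕ => T^[n] y)

/-- The set `G(T)` of generators of hypercyclic algebras. -/
def Gen {K X : Type} [RCLike K] [AddCommGroup X] [Module K X] [TopologicalSpace X]
    (m : X →ₗ[K] X →ₗ[K] X) (T : X →L[K] X) : Set X :=
  {x | x ≠ 0 ∧ ∀ y ∈ Submodule.span K (Set.range (pw m x)), y ≠ 0 → Hyp T y}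

/-- The counterexample over the scalar field `K`. -/
def Example (K : Type) [RCLike K] : Prop :=
  ∃ (X : Type) (_ : AddCommGroup X) (_ : Module K X) (_ : TopologicalSpace X)
    (m : X →ₗ[K] X →ₗ[K] X) (T : X →L[K] X),
    IsFAlg m ∧ (∀ x y, m x y = m y x) ∧
    (∃ x ∈ Gen m T, LinearIndependent K (pw m x)) ∧
    IsNowhereDense (Gen m T) ∧ ¬ Dense (Gen m T) ∧ Gen m T ∉ residual X

abbrev W := ℕ → ℂ × ℂ

def sh (x : W) : W := fun n => x (n + 1)

lemma sh_iter (k : ℕ) (x : W) (n : ℕ) : sh^[k] x n = x (n + k) := by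
  induction k generalizing x n with
  | zero => rfl
  | succ k ih => rw [Function.iterate_succ_apply, ih]; rfl

lemma sh_cont (k : ℕ) : Continuous (sh^[k]) := by
  refine continuous_pi fun n => ?_
  simp only [sh_iter]
  exact continuous_apply _

lemma exists_hyp : ∃ h : W, Hyp sh h := by
  have hd : Dense (⋂ V ∈ TopologicalSpace.countableBasis W, ⋃ k : ℕ, sh^[k] ⁻¹' V) := by
    refine dense_biInter_of_isOpen ?_ (TopologicalSpace.countable_countableBasis W) ?_
    · intro V hV
      exact isOpen_iUnion fun k =>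
        (TopologicalSpace.isOpen_of_mem_countableBasis hV).preimage (sh_cont k)
    · intro V hV x
      obtain ⟨v, hv⟩ := TopologicalSpace.nonempty_of_mem_countableBasis hV
      refine mem_closure_of_tendsto (b := atTop)
        (f := fun M : ℕ => (fun i => if i < M then x i else v (i - M) : W)) ?_ ?_
      · refine tendsto_pi_nhds.2 fun i => ?_
        refine tendsto_const_nhds.congr' ?_
        filter_upwards [eventually_gt_atTop i] with M hM
        simp [hM]
      · refine Eventually.of_forall fun M => Set.mem_iUnion.2 ⟨M, ?_⟩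
        have : sh^[M] (fun i => if i < M then x i else v (i - M) : W) = v := by
          funext n
          simp [sh_iter]
        simpa [this] using hv
  obtain ⟨h, hh⟩ := hd.nonempty
  refine ⟨h, ?_⟩
  refine (TopologicalSpace.isBasis_countableBasis W).dense_iff.2 fun V hV _ => ?_
  obtain ⟨k, hk⟩ := Set.mem_iUnion.1 (Set.mem_iInter₂.1 hh V hV)
  exact ⟨_, hk, k, rfl⟩

lemma hyp_comp {h : W} (hh : Hyp sh h) {f : ℂ × ℂ → ℂ × ℂ} (hf : Continuous f)
    (hr : DenseRange f) : Hyp sh (fun n => f (h n)) := by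
  have h1 : DenseRange (Pi.map (fun _ : ℕ => f) : W → W) := DenseRange.piMap fun _ => hr
  have h2 : Continuous (Pi.map (fun _ : ℕ => f) : W → W) :=
    continuous_pi fun n => hf.comp (continuous_apply n)
  have h3 : DenseRange (fun n : ℕ => sh^[n] h) := hh
  have h4 := h1.comp h3 h2
  have : ((Pi.map (fun _ : ℕ => f) : W → W) ∘ fun n : ℕ => sh^[n] h) =
      fun n : ℕ => sh^[n] (fun n => f (h n)) := by
    funext k n
    simp [sh_iter]
  rw [this] at h4
  exact h4

lemma dense_poly {P : ℂ[X]} (h0 : P.eval 0 = 0) (hP : P ≠ 0) :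
    DenseRange (fun q : ℂ × ℂ => (P.eval q.1, q.2 * P.eval q.1)) := by
  have hdeg : P.natDegree ≠ 0 := by
    intro hn
    rw [eq_C_of_natDegree_eq_zero hn] at h0 hP
    simp only [eval_C] at h0
    exact hP (by rw [h0]; simp)
  have hs := IsAlgClosed.eval_surjective hdeg
  have hd : Dense (({0}ᶜ : Set ℂ) ×ˢ (Set.univ : Set ℂ)) :=
    (dense_compl_singleton 0).prod dense_univ
  refine hd.mono ?_
  rintro ⟨u, v⟩ ⟨hu, -⟩
  obtain ⟨a, ha⟩ := hs u
  have hu' : u ≠ 0 := hu
  refine ⟨(a, v / u), ?_⟩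
  have ha' : P.eval a = u := ha
  simp only [ha']
  rw [div_mul_cancel₀ _ hu']

/-- The functional cutting out the generators. -/
noncomputable def ph (h x : W) : ℂ := (x 0).2 - (h 0).2 * (x 0).1

noncomputable def dd (h : W) (n : ℕ) : ℝ := n * (1 + ‖(h n).2‖)

noncomputable def ml (h x y : W) : W := fun n =>
  ((x n).1 * (y n).1, (h n).2 * ((x n).1 * (y n).1) + ph h x * ph h y * (dd h n : ℂ))

lemma ph_ml (h x y : W) : ph h (ml h x y) = 0 := by
  simp [ph, ml, dd]

lemma ml_comm (h x y : W) : ml h x y = ml h y x := by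
  funext n
  simp only [ml]
  ext <;> simp only <;> ring

variable (K : Type) [RCLike K] [NormedAlgebra K ℂ]

lemma sm (c : K) (z : ℂ) : c • z = algebraMap K ℂ c * z := Algebra.smul_def c z

lemma ph_smul (h : W) (c : K) (x : W) : ph h (c • x) = c • ph h x := by
  simp only [ph, Pi.smul_apply, Prod.smul_fst, Prod.smul_snd, sm]
  ring

lemma ml_smul (h : W) (c : K) (x y : W) : ml h (c • x) y = c • ml h x y := by
  funext n
  simp only [ml, ph_smul, Pi.smul_apply, Prod.smul_fst, Prod.smul_mk, sm]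
  ext <;> simp only <;> ring

lemma ml_add (h : W) (x x' y : W) : ml h (x + x') y = ml h x y + ml h x' y := by
  funext n
  simp only [ml, ph, Pi.add_apply, Prod.fst_add, Prod.snd_add, Prod.mk_add_mk]
  ext <;> simp only <;> ring

noncomputable def mul (h : W) : W →ₗ[K] W →ₗ[K] W :=
  LinearMap.mk₂ K (ml h) (ml_add h) (ml_smul K h)
    (fun x y y' => by rw [ml_comm, ml_add, ml_comm h y, ml_comm h y'])
    (fun c x y => by rw [ml_comm, ml_smul, ml_comm])

lemma mul_apply (h x y : W) : mul K h x y = ml h x y := rfl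

def shL : W →L[K] W where
  toFun := sh
  map_add' _ _ := rfl
  map_smul' _ _ := rfl
  cont := sh_cont 1

lemma ph_cont (h : W) : Continuous (ph h) := by
  unfold ph
  fun_prop

lemma isFAlg (h : W) : IsFAlg (mul K h) := by
  refine ⟨inferInstance, inferInstance, inferInstance, ?_, ?_⟩
  · refine continuous_pi fun n => ?_
    have := ph_cont h
    simp only [mul_apply, ml]
    fun_prop
  · intro x y z
    funext n
    simp only [mul_apply]
    have h1 := ph_ml h x y
    have h2 := ph_ml h y z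
    show (_, _ + ph h (ml h x y) * _ * _) = (_, _ + _ * ph h (ml h y z) * _)
    rw [h1, h2]
    simp only [ml]
    ext <;> simp only <;> ring

/-- The good generator. -/
noncomputable def x0 (h : W) : W := fun n => ((h n).1, (h n).2 * (h n).1)

lemma pw_x0 (h : W) (k n : ℕ) :
    pw (mul K h) (x0 h) k n = ((h n).1 ^ (k + 1), (h n).2 * (h n).1 ^ (k + 1)) := by
  induction k with
  | zero => simp [pw, x0]
  | succ k ih =>
    have h0 : ph h (x0 h) = 0 := by simp [ph, x0]
    simp only [pw, mul_apply, ml, ih, h0]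
    ext <;> simp only [x0] <;> ring

lemma span_x0 (h : W) (y : W) (hy : y ∈ Submodule.span K (Set.range (pw (mul K h) (x0 h)))) :
    ∃ P : ℂ[X], P.eval 0 = 0 ∧ y = fun n => (P.eval (h n).1, (h n).2 * P.eval (h n).1) := by
  induction hy using Submodule.span_induction with
  | mem y hy =>
    obtain ⟨k, rfl⟩ := hy
    refine ⟨X ^ (k + 1), by simp, funext fun n => ?_⟩
    simp [pw_x0]
  | zero => exact ⟨0, by simp, funext fun n => by simp [Prod.ext_iff]⟩
  | add y z _ _ hy hz =>
    obtain ⟨P, hP, rfl⟩ := hy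
    obtain ⟨Q, hQ, rfl⟩ := hz
    refine ⟨P + Q, by simp [hP, hQ], funext fun n => ?_⟩
    simp [mul_add]
  | smul c y _ hy =>
    obtain ⟨P, hP, rfl⟩ := hy
    refine ⟨C (algebraMap K ℂ c) * P, by simp [hP], funext fun n => ?_⟩
    simp only [Pi.smul_apply, Prod.smul_mk, sm, eval_mul, eval_C]
    ext <;> simp only
    ring

lemma inf_range {h : W} (hh : Hyp sh h) : (Set.range fun n => (h n).1).Infinite := by
  have h1 : DenseRange (fun x : W => (x 0).1) :=
    Function.Surjective.denseRange fun u => ⟨fun _ => (u, 0), rfl⟩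
  have h3 : DenseRange (fun n : ℕ => sh^[n] h) := hh
  have h4 := h1.comp h3 (by fun_prop)
  have : ((fun x : W => (x 0).1) ∘ fun n : ℕ => sh^[n] h) = fun n => (h n).1 := by
    funext n
    simp [sh_iter]
  rw [this] at h4
  intro hf
  have := hf.isClosed.closure_eq
  rw [h4.closure_range] at this
  rw [← this] at hf
  exact Set.infinite_univ hf

lemma indep {h : W} (hh : Hyp sh h) : LinearIndependent K (pw (mul K h) (x0 h)) := by
  rw [linearIndependent_iff']
  intro s g hs i hi
  set P : ℂ[X] := ∑ j ∈ s, monomial (j + 1) (algebraMap K ℂ (g j)) with hP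
  have hz : P = 0 := by
    refine eq_zero_of_infinite_isRoot P ((inf_range hh).mono ?_)
    rintro _ ⟨n, rfl⟩
    have := congrArg (fun x : W => (x n).1) hs
    simp only [Finset.sum_apply, Pi.smul_apply, pw_x0, Prod.fst_sum, Prod.smul_mk,
      sm, Pi.zero_apply, Prod.fst_zero] at this
    simp only [Set.mem_ofPred_eq, IsRoot, hP, eval_finset_sum, eval_monomial]
    exact this
  have := congrArg (fun Q : ℂ[X] => Q.coeff (i + 1)) hz
  simp only [hP, finset_sum_coeff, coeff_monomial, Nat.add_right_cancel_iff,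
    Finset.sum_ite_eq', hi, if_true, coeff_zero] at this
  exact (algebraMap K ℂ).injective (by simpa using this)

lemma x0_mem {h : W} (hh : Hyp sh h) : x0 h ∈ Gen (mul K h) (shL K) := by
  refine ⟨(indep K hh).ne_zero 0, fun y hy hy0 => ?_⟩
  obtain ⟨P, hP, rfl⟩ := span_x0 K h y hy
  have hP0 : P ≠ 0 := by
    rintro rfl
    exact hy0 (funext fun n => by simp [Prod.ext_iff])
  exact hyp_comp hh (f := fun q : ℂ × ℂ => (P.eval q.1, q.2 * P.eval q.1)) (by fun_prop)
    (dense_poly hP hP0)

lemma sq_big (h x : W) (hx : ph h x ≠ 0) : ∀ᶠ n in atTop, 1 ≤ ‖ml h x x n‖ := by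
  have hp : 0 < ‖ph h x‖ ^ 2 := by positivity
  filter_upwards [(tendsto_natCast_atTop_atTop (R := ℝ)).eventually_ge_atTop
    (1 / ‖ph h x‖ ^ 2)] with n hn
  by_contra hlt
  push Not at hlt
  have h1 : ‖(x n).1 * (x n).1‖ < 1 := (norm_fst_le (ml h x x n)).trans_lt hlt
  have h2 : ‖(h n).2 * ((x n).1 * (x n).1) + ph h x * ph h x * (dd h n : ℂ)‖ < 1 :=
    (norm_snd_le (ml h x x n)).trans_lt hlt
  have h3 : ‖ph h x * ph h x * (dd h n : ℂ)‖ = ‖ph h x‖ ^ 2 * (n * (1 + ‖(h n).2‖)) := by
    rw [norm_mul, norm_mul, Complex.norm_real, dd, Real.norm_of_nonneg (by positivity)]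
    ring
  have h4 : ‖ph h x * ph h x * (dd h n : ℂ)‖ ≤
      ‖(h n).2 * ((x n).1 * (x n).1) + ph h x * ph h x * (dd h n : ℂ)‖ +
        ‖(h n).2 * ((x n).1 * (x n).1)‖ := by
    have := norm_sub_le ((h n).2 * ((x n).1 * (x n).1) + ph h x * ph h x * (dd h n : ℂ))
      ((h n).2 * ((x n).1 * (x n).1))
    simpa using this
  have h5 : ‖(h n).2 * ((x n).1 * (x n).1)‖ ≤ ‖(h n).2‖ := by
    rw [norm_mul]
    exact mul_le_of_le_one_right (norm_nonneg _) h1.le
  have h6 : 1 ≤ ‖ph h x‖ ^ 2 * n := by
    rw [div_le_iff₀ hp] at hn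
    linarith
  have h7 : 0 ≤ ‖(h n).2‖ := norm_nonneg _
  nlinarith

lemma gen_sub (h : W) : Gen (mul K h) (shL K) ⊆ {x | ph h x = 0} := by
  intro x hx
  by_contra hne
  have hb := sq_big h x hne
  obtain ⟨N, hN⟩ := eventually_atTop.1 hb
  have hy0 : ml h x x ≠ 0 := by
    intro h0
    have := hN N le_rfl
    rw [h0] at this
    norm_num at this
  have hy : Hyp sh (ml h x x) := hx.2 _ (Submodule.subset_span ⟨1, rfl⟩) hy0
  have h1 : DenseRange (fun x : W => x N) :=
    Function.Surjective.denseRange fun u => ⟨fun _ => u, rfl⟩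
  have h3 : DenseRange (fun n : ℕ => sh^[n] (ml h x x)) := hy
  obtain ⟨n, hn⟩ := (h1.comp h3 (continuous_apply N)).exists_mem_open Metric.isOpen_ball
    (Metric.nonempty_ball.2 one_pos : (Metric.ball (0 : ℂ × ℂ) 1).Nonempty)
  simp only [Function.comp_apply, sh_iter, mem_ball_zero_iff] at hn
  exact absurd (hN (N + n) (Nat.le_add_right _ _)) (not_le.2 hn)

lemma ker_nd (h : W) : IsNowhereDense {x : W | ph h x = 0} := by
  have hc : IsClosed {x : W | ph h x = 0} := isClosed_eq (ph_cont h) continuous_const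
  rw [hc.isNowhereDense_iff, interior_eq_empty_iff_dense_compl]
  intro x
  by_cases hx : ph h x = 0
  · refine mem_closure_of_tendsto (b := 𝓝[≠] (0 : ℂ))
      (f := fun t : ℂ => x + (fun _ => (0, t) : W)) ?_ ?_
    · have : Continuous fun t : ℂ => x + (fun _ => (0, t) : W) := by fun_prop
      have h2 := this.tendsto 0
      have h3 : x + (fun _ => ((0 : ℂ), (0 : ℂ)) : W) = x := by
        funext n
        simp
      rw [h3] at h2
      exact h2.mono_left nhdsWithin_le_nhds
    · filter_upwards [self_mem_nhdsWithin] with t ht h0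
      have h1 : ph h (x + (fun _ => (0, t) : W)) = ph h x + t := by
        simp only [ph, Pi.add_apply, Prod.fst_add, Prod.snd_add]
        ring
      have h2 : ph h (x + (fun _ => (0, t) : W)) = 0 := h0
      rw [h1, hx, zero_add] at h2
      exact ht h2
  · exact subset_closure hx

lemma counter : Example K := by
  obtain ⟨h, hh⟩ := exists_hyp
  have hnd : IsNowhereDense (Gen (mul K h) (shL K)) := (ker_nd h).mono (gen_sub K h)
  have hd : ¬ Dense (Gen (mul K h) (shL K)) := by
    intro hd
    have := hnd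
    rw [IsNowhereDense, hd.closure_eq, interior_univ] at this
    exact Set.univ_nonempty.ne_empty this
  exact ⟨W, inferInstance, inferInstance, inferInstance, mul K h, shL K, isFAlg K h,
    ml_comm h, ⟨x0 h, x0_mem K hh, indep K hh⟩, hnd, hd, fun hr => hd (dense_of_mem_residual hr)⟩

theorem result : Example ℝ ∧ Example ℂ := ⟨counter ℝ, counter ℂ⟩

end Pool.Agent.Results.MP_6ee6b4_an.Counter
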